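import Pool.Agent.N897.AVR.R
import Pool.Agent.Results.MP_ca0a54_nt.AlmostAllIntervals

/-!
# Small gaps between zeta zeros around the values of additive functions

Let `F = f_1 ∘ ⋯ ∘ f_k` be a composition of functions dominated by the largest prime factor: additive functions `f` with
`f (q^j) ≤ C q^j` at the prime powers and with different values at different large primes (for example the sum of the prime
factors), the largest prime factor, Kempner's function. Let `G (v + 1) - G v ≥ a > 0` and `G v ≤ C v`, for example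
`G v = α v`. For all `0 ≤ η < θ < 1`, `c > 2 / (3 + θ)`, for all `m ≤ N` but `N / (log N)^U` (every `U`) EVERY interval
`[t, t + t ^ θ]` with `|t - G (F m)| ≤ (F m) ^ η` contains two consecutive ordinates of zeros of `ζ` at distance less than `c`
times the mean spacing `2π / log t`.

The starting theorem `AlmostAllIntervals` of this problem bounds the measure of the set of the exceptional `t`; the values of
`F` are taken with large multiplicities and `F(m)` is in general much smaller than `m`, so this is not a consequence of the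
measure alone.

Proof. For an exceptional `t` all points of an interval of length 2 near `t` are exceptional for a smaller `θ`. So the `v` with
an exceptional `t` near `G v` are a set of natural numbers with a saving of every power of the logarithm
(`Pool/Agent/N897/AVR`), and the preimage under a function dominated by the largest prime factor of such a set is such a set
(`Pool/Agent/N375/AV`, helper375).
-/

set_option autoImplicit false

open Filter Topology MeasureTheory Finset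

namespace Pool.Agent.Results.MP_ca0a54_nt.AdditiveValues

open Pool.Agent.N733.TG (Expanding expanding_pow step_sum)
open Pool.Agent.N375.AV (PD comp pd_additive pd_largest pd_kempner)
open Pool.Agent.N897.AVR (real_windows expanding_add large)
open Pool.Agent.Results.MP_ca0a54_nt.AlmostAllIntervals (ord gb)

/-- `[t, t + H]` contains two consecutive ordinates of zeros (listed with multiplicity) at distance less than `c` times the
mean spacing `2π / log t` -/
def SmallGap (c t H : ℝ) : Prop :=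
  ∃ m : ℕ, 1 ≤ m ∧ t ≤ ord m ∧ ord m ≤ ord (m + 1) ∧ ord (m + 1) ≤ t + H ∧
    ord (m + 1) - ord m < c * (2 * Real.pi / Real.log t)

/-- (as in `StarshapedIntervals`) -/
lemma tendsto_phi (C : ℝ) :
    Tendsto (fun T : ℝ => (1 + C * (Real.log (Real.log T) / Real.log T)) * (1 + Real.log 2 / Real.log T)) atTop
      (𝓝 1) := by
  have h1 : Tendsto (fun T : ℝ => Real.log (Real.log T) / Real.log T) atTop (𝓝 0) :=
    (Real.isLittleO_log_id_atTop.tendsto_div_nhds_zero).comp Real.tendsto_log_atTop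
  have h2 : Tendsto (fun T : ℝ => Real.log 2 / Real.log T) atTop (𝓝 0) :=
    tendsto_const_nhds.div_atTop Real.tendsto_log_atTop
  have h3 := ((h1.const_mul C).const_add 1).mul (h2.const_add 1)
  simpa using h3

/-- (as in `StarshapedIntervals`) -/
lemma gap_lt {C c θ T H t : ℝ} (hC : 0 < C) (hθ : 0 ≤ θ) (hc : 0 < c) (hT : 3 ≤ T) (hH : T ^ θ ≤ H) (ht1 : T ≤ t)
    (ht2 : t ≤ 2 * T)
    (hφ : 2 / (3 + θ) * ((1 + C * (Real.log (Real.log T) / Real.log T)) * (1 + Real.log 2 / Real.log T)) < c) :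
    gb C H T < c * (2 * Real.pi / Real.log t) := by
  have hT0 : 0 < T := by linarith
  have hl1 : 1 < Real.log T := by
    rw [Real.lt_log_iff_exp_lt hT0]
    have := Real.exp_one_lt_d9
    linarith
  set l : ℝ := Real.log T with hl
  have hl0 : 0 < l := by linarith
  set A : ℝ := 1 + C * (Real.log l / l) with hA
  have hA0 : 0 < A := by
    have : 0 ≤ Real.log l := Real.log_nonneg hl1.le
    positivity
  have hTθ : 0 < T ^ θ := by positivity
  have hH0 : 0 < H := lt_of_lt_of_le hTθ hH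
  have h1 : (3 + θ) * l ≤ Real.log (T ^ 3 * H) := by
    rw [Real.log_mul (by positivity) hH0.ne', Real.log_pow]
    have := Real.log_le_log hTθ hH
    rw [Real.log_rpow hT0] at this
    push_cast
    linarith
  have h2 : gb C H T ≤ 4 * Real.pi / ((3 + θ) * l) * A := by
    unfold gb
    apply mul_le_mul_of_nonneg_right _ hA0.le
    exact div_le_div_of_nonneg_left (by positivity) (by positivity) h1
  have h2l : 0 < Real.log 2 := Real.log_pos (by norm_num)
  have h3 : Real.log t ≤ l + Real.log 2 := by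
    have := Real.log_le_log (by linarith) ht2
    rw [Real.log_mul (by norm_num) hT0.ne'] at this
    linarith
  have h4 : 0 < Real.log t := Real.log_pos (by linarith)
  have h5 : c * (2 * Real.pi / (l + Real.log 2)) ≤ c * (2 * Real.pi / Real.log t) := by
    apply mul_le_mul_of_nonneg_left _ hc.le
    exact div_le_div_of_nonneg_left (by positivity) h4 h3
  refine h2.trans_lt (lt_of_lt_of_le ?_ h5)
  have h6 : 4 * Real.pi / ((3 + θ) * l) * A =
      (2 / (3 + θ) * (A * (1 + Real.log 2 / l))) * (2 * Real.pi / (l + Real.log 2)) := by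
    have h7 : l + Real.log 2 ≠ 0 := by positivity
    field_simp
    ring
  rw [h6]
  exact mul_lt_mul_of_pos_right hφ (by positivity)

/-- the measure of the set of the exceptional `t` -/
lemma meas {θ c : ℝ} (hθ : 0 < θ) (hθ1 : θ < 1) (hc : 2 / (3 + θ) < c) (A : ℕ) :
    ∃ T₀ : ℝ, ∀ T : ℝ, T₀ ≤ T → volume ({t : ℝ | ¬ SmallGap c t (t ^ θ)} ∩ Set.Icc T (2 * T)) ≤
      ENNReal.ofReal (T / Real.log T ^ A) := by
  have hc0 : 0 < c := lt_trans (by positivity) hc
  obtain ⟨C, T0, hC, hmain⟩ := AlmostAllIntervals.result.1 A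
  have e1 : ∀ᶠ T : ℝ in atTop,
      2 / (3 + θ) * ((1 + C * (Real.log (Real.log T) / Real.log T)) * (1 + Real.log 2 / Real.log T)) < c := by
    have h1 := (tendsto_phi C).const_mul (2 / (3 + θ))
    rw [mul_one] at h1
    exact h1.eventually_lt_const hc
  have e2 : ∀ᶠ T : ℝ in atTop, Real.log T ^ (A + 39) ≤ T ^ θ := by
    have h1 := isLittleO_log_rpow_rpow_atTop ((A + 39 : ℕ) : ℝ) hθ
    filter_upwards [h1.bound one_pos, eventually_ge_atTop (1 : ℝ)] with T h2 h3
    rw [one_mul, Real.rpow_natCast, Real.norm_of_nonneg (pow_nonneg (Real.log_nonneg h3) _),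
      Real.norm_of_nonneg (by positivity)] at h2
    exact h2
  obtain ⟨T₁, hT₁⟩ := eventually_atTop.1 ((e1.and e2).and ((eventually_ge_atTop T0).and (eventually_ge_atTop (3 : ℝ))))
  refine ⟨T₁, fun T hT => ?_⟩
  obtain ⟨⟨g1, g2⟩, g3, g4⟩ := hT₁ T hT
  have hT0 : 0 < T := by linarith
  refine (measure_mono ?_).trans (hmain T (T ^ θ) g3 g2 ?_)
  · rintro t ⟨ht, ht1, ht2⟩
    refine ⟨ht1, ht2, ?_⟩
    rintro ⟨m, h1, h2, h3, h4, h5⟩
    apply ht
    have h6 : T ^ θ ≤ t ^ θ := Real.rpow_le_rpow hT0.le ht1 hθ.le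
    exact ⟨m, h1, h2, h3, h4.trans (by linarith), lt_of_le_of_lt h5 (gap_lt hC hθ.le hc0 g4 le_rfl ht1 ht2 g1)⟩
  · calc T ^ θ ≤ T ^ (1 : ℝ) := Real.rpow_le_rpow_of_exponent_le (by linarith) hθ1.le
      _ = T := Real.rpow_one T

lemma exists_theta {η θ c : ℝ} (hη : 0 ≤ η) (h : η < θ) (hc : 2 / (3 + θ) < c) :
    ∃ θ' : ℝ, η < θ' ∧ θ' < θ ∧ 2 / (3 + θ') < c := by
  have hc0 : 0 < c := lt_trans (by have : 0 < 3 + θ := by linarith
                                   positivity) hc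
  have h4 : 2 / c - 3 < θ := by
    rw [div_lt_iff₀ (by linarith)] at hc
    rw [sub_lt_iff_lt_add, div_lt_iff₀ hc0]
    linarith
  obtain ⟨s, h1, h2⟩ := exists_between (max_lt h h4)
  refine ⟨s, (le_max_left _ _).trans_lt h1, h2, ?_⟩
  have h3 := (le_max_right _ _).trans_lt h1
  have h5 := (le_max_left _ _).trans_lt h1
  rw [div_lt_iff₀ (by linarith)]
  rw [sub_lt_iff_lt_add, div_lt_iff₀ hc0] at h3
  linarith

/-- near an exceptional point all points are exceptional for a smaller exponent -/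
lemma spread {η θ θ' c : ℝ} (hη : 0 ≤ η) (h1 : η < θ') (h2 : θ' < θ) (hθ1 : θ < 1) (hc : 0 < c) {G : ℕ → ℝ}
    (hG : Expanding G 1) : ∃ v₀ : ℕ, ∀ v : ℕ, v₀ ≤ v → ∀ t : ℝ, |t - G v| ≤ (v : ℝ) ^ η → ¬ SmallGap c t (t ^ θ) →
      Set.Ico (G v + (v : ℝ) ^ η) (G v + (v : ℝ) ^ η + 2) ⊆ {s : ℝ | ¬ SmallGap c s (s ^ θ')} := by
  obtain ⟨a, ha, hstep⟩ := hG.step
  obtain ⟨C, hC⟩ := hG.growth
  obtain ⟨M, hM⟩ : ∃ M : ℝ, M = |C| + 3 := ⟨_, rfl⟩
  have hM0 : 0 < M := by rw [hM]; positivity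
  have hη1 : η < 1 := by linarith
  have hθ0 : 0 < θ := by linarith
  have hθ'0 : 0 < θ' := by linarith
  have hpow : ∀ {x : ℝ}, 0 < x → Tendsto (fun v : ℕ => (v : ℝ) ^ x) atTop atTop := fun hx =>
    (tendsto_rpow_atTop hx).comp tendsto_natCast_atTop_atTop
  have e1 := (hpow (show 0 < 1 - η by linarith)).eventually (eventually_ge_atTop (4 / a))
  have e2 := (hpow (show 0 < θ - θ' by linarith)).eventually (eventually_ge_atTop ((M ^ θ' + 4) / (a / 4) ^ θ))
  have e3 : ∀ᶠ v : ℕ in atTop, a - G 1 ≤ a / 2 * v :=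
    (tendsto_natCast_atTop_atTop.const_mul_atTop (by positivity : 0 < a / 2)).eventually (eventually_ge_atTop _)
  have e4 : ∀ᶠ v : ℕ in atTop, 2 ≤ a / 4 * v :=
    (tendsto_natCast_atTop_atTop.const_mul_atTop (by positivity : 0 < a / 4)).eventually (eventually_ge_atTop _)
  obtain ⟨v₀, hv₀⟩ := eventually_atTop.1 ((e1.and e2).and ((e3.and e4).and (eventually_ge_atTop 1)))
  refine ⟨v₀, fun v hv t ht1 ht2 s hs hs' => ?_⟩
  obtain ⟨⟨g1, g2⟩, ⟨g3, g4⟩, g5⟩ := hv₀ v hv
  have hv1 : (1 : ℝ) ≤ v := by exact_mod_cast g5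
  have hv0 : (0 : ℝ) < v := by linarith
  obtain ⟨ht3, ht4⟩ := abs_le.1 ht1
  -- sizes
  have k1 : (v : ℝ) ^ η ≤ a / 4 * v := by
    have : (v : ℝ) ^ η * (v : ℝ) ^ (1 - η) = v := by
      rw [← Real.rpow_add hv0, add_sub_cancel, Real.rpow_one]
    have h3 : (v : ℝ) ^ η * (4 / a) ≤ v := by
      calc (v : ℝ) ^ η * (4 / a) ≤ (v : ℝ) ^ η * (v : ℝ) ^ (1 - η) := mul_le_mul_of_nonneg_left g1 (by positivity)
        _ = v := this
    rw [mul_div_assoc', div_le_iff₀ ha] at h3
    linarith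
  have k2 : a / 2 * v ≤ G v := by
    have h3 := step_sum hstep (le_refl 1) g5
    have h4 : ((v - 1 : ℕ) : ℝ) = v - 1 := by
      rw [Nat.cast_sub g5, Nat.cast_one]
    rw [h4] at h3
    linarith
  have k3 : a / 4 * v ≤ t := by linarith
  have k4 : 2 ≤ t := by linarith
  have k5 : t ≤ s := by linarith [hs.1]
  have k6 : (v : ℝ) ^ η ≤ v := by
    calc (v : ℝ) ^ η ≤ (v : ℝ) ^ (1 : ℝ) := Real.rpow_le_rpow_of_exponent_le hv1 hη1.le
      _ = v := Real.rpow_one _
  have k7 : s ≤ M * v := by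
    have h3 : G v ≤ |C| * v := by
      calc G v ≤ C * (v : ℝ) ^ (1 : ℝ) := hC v g5
        _ = C * v := by rw [Real.rpow_one]
        _ ≤ |C| * v := mul_le_mul_of_nonneg_right (le_abs_self _) hv0.le
    rw [hM]
    have := hs.2
    linarith
  have k8 : s ^ θ' ≤ M ^ θ' * (v : ℝ) ^ θ' := by
    rw [← Real.mul_rpow hM0.le hv0.le]
    exact Real.rpow_le_rpow (by linarith) k7 hθ'0.le
  have k9 : (v : ℝ) ^ η ≤ (v : ℝ) ^ θ' := Real.rpow_le_rpow_of_exponent_le hv1 h1.le
  have k10 : 1 ≤ (v : ℝ) ^ θ' := Real.one_le_rpow hv1 hθ'0.le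
  have k11 : (M ^ θ' + 4) * (v : ℝ) ^ θ' ≤ t ^ θ := by
    have hb : 0 < (a / 4) ^ θ := by positivity
    rw [div_le_iff₀ hb] at g2
    calc (M ^ θ' + 4) * (v : ℝ) ^ θ' ≤ ((v : ℝ) ^ (θ - θ') * (a / 4) ^ θ) * (v : ℝ) ^ θ' :=
          mul_le_mul_of_nonneg_right g2 (by positivity)
      _ = (a / 4) ^ θ * ((v : ℝ) ^ (θ - θ') * (v : ℝ) ^ θ') := by ring
      _ = (a / 4) ^ θ * (v : ℝ) ^ θ := by rw [← Real.rpow_add hv0, sub_add_cancel]
      _ = (a / 4 * v) ^ θ := by rw [Real.mul_rpow (by positivity) hv0.le]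
      _ ≤ t ^ θ := Real.rpow_le_rpow (by positivity) k3 hθ0.le
  have k12 : s + s ^ θ' ≤ t + t ^ θ := by
    have h3 : s ≤ t + 2 * (v : ℝ) ^ η + 2 := by linarith [hs.2]
    have h4 : (M ^ θ' + 4) * (v : ℝ) ^ θ' = M ^ θ' * (v : ℝ) ^ θ' + 4 * (v : ℝ) ^ θ' := by ring
    linarith
  obtain ⟨m, q1, q2, q3, q4, q5⟩ := hs'
  apply ht2
  have hl : 0 < Real.log t := Real.log_pos (by linarith)
  refine ⟨m, q1, k5.trans q2, q3, q4.trans k12, lt_of_lt_of_le q5 ?_⟩
  apply mul_le_mul_of_nonneg_left _ hc.le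
  exact div_le_div_of_nonneg_left (by positivity) hl (Real.log_le_log (by linarith) k5)

/-- **Small gaps between zeta zeros around the values of additive functions and of their compositions.** For every composition
`F = f_1 ∘ ⋯ ∘ f_k` of functions dominated by the largest prime factor, every `G` with steps `≥ a > 0` and growth at most `v`,
all `0 ≤ η < θ < 1`, all `c > 2 / (3 + θ)`, all `U` and all large `N`, for all `m ≤ N` but `N / (log N)^U` EVERY interval
`[t, t + t ^ θ]` with `|t - G (F m)| ≤ (F m) ^ η` contains two consecutive ordinates at distance less than `c` times the mean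
spacing `2π / log t`; examples of `f_i` and `G`. -/
theorem result :
    (∀ fs : List (ℕ → ℕ), (∀ f ∈ fs, PD f) → ∀ G : ℕ → ℝ, Expanding G 1 → ∀ η θ c : ℝ, 0 ≤ η → η < θ → θ < 1 →
      2 / (3 + θ) < c → ∀ U : ℕ, ∃ N₀ : ℕ, ∀ N : ℕ, N₀ ≤ N →
      ({m : ℕ | 1 ≤ m ∧ m ≤ N ∧ ¬ ∀ t : ℝ, |t - G (comp fs m)| ≤ (comp fs m : ℝ) ^ η → SmallGap c t (t ^ θ)}.ncard : ℝ) ≤
        N / Real.log N ^ U) ∧
    (∀ f : ℕ → ℕ, (∀ a b : ℕ, Nat.Coprime a b → f (a * b) = f a + f b) →
      (∃ C : ℕ, ∀ q j : ℕ, q.Prime → 1 ≤ j → f (q ^ j) ≤ C * q ^ j) →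
      (∃ P : ℕ, ∀ p q : ℕ, p.Prime → q.Prime → P ≤ p → P ≤ q → f p = f q → p = q) → PD f) ∧
    (PD (fun n => n.primeFactors.sup id) ∧ PD (fun n => sInf {k : ℕ | n ∣ k.factorial})) ∧
    ∀ α : ℝ, 0 < α → Expanding (fun v => α * (v : ℝ) ^ (1 : ℝ)) 1 := by
  refine ⟨fun fs hfs G hG η θ c hη hηθ hθ1 hc U => ?_, fun f a1 a2 a3 => pd_additive a1 a2 a3, ⟨pd_largest, pd_kempner⟩,
    fun α hα => expanding_pow hα le_rfl⟩
  obtain ⟨θ', h1, h2, h3⟩ := exists_theta hη hηθ hc
  have hc0 : 0 < c := lt_trans (by have : 0 < 3 + θ := by linarith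
                                   positivity) hc
  obtain ⟨v₀, hv₀⟩ := spread hη h1 h2 hθ1 hc0 hG
  obtain ⟨N₀, hN₀⟩ := real_windows (B := {s : ℝ | ¬ SmallGap c s (s ^ θ')})
    (meas (by linarith) (by linarith) h3) fs hfs (expanding_add hG hη (by linarith)) v₀ U
  refine ⟨N₀, fun N hN => le_trans ?_ (hN₀ N hN)⟩
  have hfin : {m : ℕ | 1 ≤ m ∧ m ≤ N ∧ (comp fs m < v₀ ∨
      Set.Ico (G (comp fs m) + (comp fs m : ℝ) ^ η) (G (comp fs m) + (comp fs m : ℝ) ^ η + 2) ⊆
        {s : ℝ | ¬ SmallGap c s (s ^ θ')})}.Finite :=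
    (Set.finite_Icc 1 N).subset (fun m hm => ⟨hm.1, hm.2.1⟩)
  have hsub : {m : ℕ | 1 ≤ m ∧ m ≤ N ∧ ¬ ∀ t : ℝ, |t - G (comp fs m)| ≤ (comp fs m : ℝ) ^ η → SmallGap c t (t ^ θ)} ⊆
      {m : ℕ | 1 ≤ m ∧ m ≤ N ∧ (comp fs m < v₀ ∨
      Set.Ico (G (comp fs m) + (comp fs m : ℝ) ^ η) (G (comp fs m) + (comp fs m : ℝ) ^ η + 2) ⊆
        {s : ℝ | ¬ SmallGap c s (s ^ θ')})} := by
    rintro m ⟨hm1, hm2, hm3⟩
    refine ⟨hm1, hm2, ?_⟩
    rcases lt_or_ge (comp fs m) v₀ with h | h
    · exact Or.inl h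
    · right
      push Not at hm3
      obtain ⟨t, ht1, ht2⟩ := hm3
      exact hv₀ _ h t ht1 ht2
  exact_mod_cast Set.ncard_le_ncard hsub hfin

end Pool.Agent.Results.MP_ca0a54_nt.AdditiveValues
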