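import Pool.Agent.N806.HG.All

/-!
# MP_ca0a54_nt: gaps below one half of the mean spacing

No hypothesis is assumed.

(1) There is a set `E` of natural numbers, of logarithmic density zero, such that for every `C` and
every large natural number `T` outside `E` two consecutive ordinates in `[T, 2T]` are at distance
less than `(π / log T) (1 - C / log T) = (1/2 - (C/2) / log T) (2π / log T)`.

(2) There is `C` such that for ALL large real `T` two consecutive ordinates in `[T, 2T]` are at
distance at most `(π / log T) (1 + C / log T)`.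

Idea of the proof. Let `δ = (π / log T)(1 - C / log T)` and suppose that all zeros in `[T, 2T]` are
simple, on the line and more than `δ` apart. The residue theorem for
`φ(s) Γ_R(s) Γ_R(1-s) ζ(s')A(s')ζ(1-s')A(1-s') / (Λ(s+iδ/2) Λ(s-iδ/2))`, `s' = s - iδ/2`, has
positive weights at the zeros, so that a quadratic form in the coefficients of `A` is nonnegative.
For `A(s) = ∑_{n ≤ N} μ(n) n^(-s)` with `N = T` the form vanishes to leading order (this is the
barrier 1/2). We take `N = e^K T` with a large constant `K`. After an average over the centre of the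
Gaussian `φ` in `[5T/4, 7T/4]` the terms with `n > T` contribute `- c K`, except for the
correlations `∑ μ(n) μ(n+h)` with `1 ≤ h ≤ H(K)`, which vanish at almost all scales by the two point
theorem of Tao (in the form for natural averages at almost all scales).
-/

open Filter Topology

namespace Pool.Agent.Results.MP_ca0a54_nt.BelowHalf

/-- multiplicity of `s` as a zero of the Riemann zeta function (order of vanishing at `s`) -/
noncomputable def zmult (s : ℂ) : ℕ := analyticOrderNatAt riemannZeta s

/-- the number of nontrivial zeros of `ζ` with ordinate in `(0, t]`, with multiplicity -/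
noncomputable def NZ (t : ℝ) : ℕ :=
  ∑ᶠ s ∈ {s : ℂ | riemannZeta s = 0 ∧ 0 < s.re ∧ s.re < 1 ∧ 0 < s.im ∧ s.im ≤ t}, zmult s

/-- for `n ≥ 1`: the `n`-th positive ordinate `γ_n` of a nontrivial zero of `ζ`, the ordinates being
listed in nondecreasing order and repeated according to multiplicity -/
noncomputable def ord (n : ℕ) : ℝ := sInf {t : ℝ | n ≤ NZ t}

open Classical in
/-- logarithmic density zero: `(1 / log X) ∑_{n ≤ X, n ∈ E} 1 / n → 0` -/
def LogDensityZero (E : Set ℕ) : Prop := Tendsto
  (fun X : ℕ => (∑ n ∈ Finset.Icc 1 X, if n ∈ E then (1 : ℝ) / n else 0) / Real.log X) atTop (𝓝 0)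

theorem result :
    (∃ E : Set ℕ, LogDensityZero E ∧ ∀ C : ℝ, ∃ T0 : ℕ, ∀ T : ℕ, T0 ≤ T → T ∉ E →
      ∃ n : ℕ, 1 ≤ n ∧ (T : ℝ) ≤ ord n ∧ ord n ≤ ord (n + 1) ∧ ord (n + 1) ≤ 2 * T ∧
        ord (n + 1) - ord n < Real.pi / Real.log T * (1 - C / Real.log T)) ∧
    (∃ C T0 : ℝ, ∀ T : ℝ, T0 ≤ T →
      ∃ n : ℕ, 1 ≤ n ∧ T ≤ ord n ∧ ord n ≤ ord (n + 1) ∧ ord (n + 1) ≤ 2 * T ∧
        ord (n + 1) - ord n ≤ Real.pi / Real.log T * (1 + C / Real.log T)) := by
  obtain ⟨E, hLZ, hE⟩ := Pool.Agent.N806.HG.exists_exc
  exact ⟨⟨E, hLZ, fun C => Pool.Agent.N806.HG.gaps E hE C⟩, Pool.Agent.N806.HG.gaps_all⟩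

end Pool.Agent.Results.MP_ca0a54_nt.BelowHalf
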