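import Pool.Agent.N918.MS.LogS
import Pool.Agent.Results.MP_ca0a54_nt.StarshapedIntervals

/-!
# Small gaps between zeta zeros in short intervals at random heights and along all separated sequences

Let `SmallGap c t H` mean that `[t, t + H]` contains two consecutive ordinates of zeros of `ζ` (listed with multiplicity) at
distance less than `c` times the mean spacing `2π / log t`. We prove, unconditionally, with ONE exceptional event (set) of
probability (measure) zero for all `0 ≤ θ < 1` and all `c > 2 / (3 + θ)` (and all `U` in the first and the third part):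

* for random heights `T_0, T_1, …`, of ANY dependence, with `P (T_n ∈ S) ≤ C |S| / X` for `S ⊆ [X, 2X]`, `X ≥ 1`, of which all
  but `C N ^ (1 - κ)` of those with `n < N` are at least `N ^ κ`: almost surely, for all `U`, for all but `N / (log N) ^ U` of
  the `n < N`, `SmallGap c t (t ^ θ (log t) ^ (U + 43))` holds for `t = T_n`;
* for random heights with the same condition on the distributions and with `T_n ≥ exp (n ^ δ)`: almost surely
  `SmallGap c t (t ^ θ (log t) ^ (V + 41))` holds for `t = T_n`, for all but finitely many `n`, if `δ V > 1`;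
* for ANY sequence of positive real numbers `a_n` with mutual distances at least `δ > 0`, in any order, and for almost all
  `x > 0`: for all `U` and all but `N / (log N) ^ U` of the `n < N`, `SmallGap c t (t ^ θ (log t) ^ (U + 43))` holds for
  `t = a_n x`.
-/

set_option autoImplicit false

namespace Pool.Agent.Results.MP_ca0a54_nt.RandomHeights

open MeasureTheory Filter Topology
open AlmostAllIntervals (ord gb)
open StarshapedIntervals (SmallGap)
open Pool.Agent.N918.MS (LogRare Spread)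

/-- For all but `N / (log N) ^ U` of the `n < N` there are small gaps in `[t, t + t ^ θ (log t) ^ (U + 43)]`, `t = t_n`. -/
def MostGaps (t : ℕ → ℝ) : Prop :=
  ∀ (U : ℕ) (θ c : ℝ), 0 ≤ θ → θ < 1 → 2 / (3 + θ) < c → ∀ᶠ N : ℕ in atTop,
    ({n : ℕ | n < N ∧ ¬ SmallGap c (t n) (t n ^ θ * Real.log (t n) ^ (U + 43))}.ncard : ℝ) ≤ N / Real.log N ^ U

/-- For all but finitely many `n` there are small gaps in `[t, t + t ^ θ (log t) ^ (V + 41)]`, `t = t_n`. -/
def AllGaps (V : ℕ) (t : ℕ → ℝ) : Prop :=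
  ∀ θ c : ℝ, 0 ≤ θ → θ < 1 → 2 / (3 + θ) < c → ∀ᶠ n : ℕ in atTop,
    SmallGap c (t n) (t n ^ θ * Real.log (t n) ^ (V + 41))

/-- the exceptional sets -/
def bad (W : ℕ) (p : ℚ × ℚ) : Set ℝ :=
  {t | t < 3 ∨ ¬ SmallGap (p.2 : ℝ) t (t ^ (p.1 : ℝ) * Real.log t ^ (W + 39))}

lemma SmallGap.mono {c c' t H H' : ℝ} (ht : 1 < t) (hc : c ≤ c') (hH : H ≤ H') (h : SmallGap c t H) : SmallGap c' t H' := by
  obtain ⟨m, h1, h2, h3, h4, h5⟩ := h
  refine ⟨m, h1, h2, h3, by linarith, h5.trans_le ?_⟩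
  have : 0 ≤ 2 * Real.pi / Real.log t := by
    have := Real.log_pos ht
    positivity
  exact mul_le_mul_of_nonneg_right hc this

/-- the starting theorem for all large `T` -/
lemma measure_bad (W : ℕ) {θ c : ℝ} (hθ : 0 ≤ θ) (hθ1 : θ < 1) (hc : 2 / (3 + θ) < c) : ∃ T₁ : ℝ, 3 ≤ T₁ ∧ ∀ T : ℝ, T₁ ≤ T →
    volume ({t | ¬ SmallGap c t (t ^ θ * Real.log t ^ (W + 39))} ∩ Set.Icc T (2 * T)) ≤
      ENNReal.ofReal (T / Real.log T ^ W) := by
  have hc0 : 0 < c := lt_trans (by positivity) hc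
  obtain ⟨C, T0, hC, hmain⟩ := AlmostAllIntervals.result.1 W
  have e1 : ∀ᶠ T : ℝ in atTop,
      2 / (3 + θ) * ((1 + C * (Real.log (Real.log T) / Real.log T)) * (1 + Real.log 2 / Real.log T)) < c := by
    have h1 := (StarshapedIntervals.tendsto_phi C).const_mul (2 / (3 + θ))
    rw [mul_one] at h1
    exact h1.eventually_lt_const hc
  have e2 : ∀ᶠ T : ℝ in atTop, Real.log T ^ (W + 39) ≤ T ^ (1 - θ) := by
    have h1 := isLittleO_log_rpow_rpow_atTop ((W + 39 : ℕ) : ℝ) (show 0 < 1 - θ by linarith)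
    filter_upwards [h1.bound one_pos, eventually_ge_atTop (1 : ℝ)] with T h2 h3
    rw [one_mul, Real.rpow_natCast, Real.norm_of_nonneg (pow_nonneg (Real.log_nonneg h3) _),
      Real.norm_of_nonneg (by positivity)] at h2
    exact h2
  obtain ⟨T₁, hT₁⟩ := eventually_atTop.1 ((e1.and e2).and ((eventually_ge_atTop T0).and (eventually_ge_atTop (3 : ℝ))))
  refine ⟨max T₁ 3, le_max_right _ _, fun T hT => ?_⟩
  obtain ⟨⟨g1, g2⟩, g3, g4⟩ := hT₁ T ((le_max_left _ _).trans hT)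
  have hT0 : 0 < T := by linarith
  have hlT : 0 ≤ Real.log T := Real.log_nonneg (by linarith)
  have hTθ : 1 ≤ T ^ θ := Real.one_le_rpow (by linarith) hθ
  have hlog1 : 1 ≤ Real.log T := by
    rw [Real.le_log_iff_exp_le hT0]
    have := Real.exp_one_lt_d9
    linarith
  refine (measure_mono ?_).trans (hmain T (T ^ θ * Real.log T ^ (W + 39)) g3 ?_ ?_)
  · rintro t ⟨ht, ht1, ht2⟩
    refine ⟨ht1, ht2, ?_⟩
    rintro ⟨m, h1, h2, h3, h4, h5⟩
    apply ht
    have h6 : T ^ θ * Real.log T ^ (W + 39) ≤ t ^ θ * Real.log t ^ (W + 39) := by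
      apply mul_le_mul (Real.rpow_le_rpow hT0.le ht1 hθ) _ (by positivity) (by
        have : 0 < t := by linarith
        positivity)
      exact pow_le_pow_left₀ hlT (Real.log_le_log hT0 ht1) _
    refine ⟨m, h1, h2, h3, h4.trans (by linarith), lt_of_le_of_lt h5 ?_⟩
    apply StarshapedIntervals.gap_lt hC hθ hc0 g4 _ ht1 ht2 g1
    have h7 : (1 : ℝ) ≤ Real.log T ^ (W + 39) := one_le_pow₀ hlog1
    calc T ^ θ = T ^ θ * 1 := (mul_one _).symm
      _ ≤ T ^ θ * Real.log T ^ (W + 39) := mul_le_mul_of_nonneg_left h7 (by linarith)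
  · have h7 : 0 ≤ Real.log T ^ (W + 39) := by positivity
    calc Real.log T ^ (W + 39) = 1 * Real.log T ^ (W + 39) := by rw [one_mul]
      _ ≤ T ^ θ * Real.log T ^ (W + 39) := mul_le_mul_of_nonneg_right hTθ h7
  · calc T ^ θ * Real.log T ^ (W + 39) ≤ T ^ θ * T ^ (1 - θ) := mul_le_mul_of_nonneg_left g2 (by linarith)
      _ = T := by rw [← Real.rpow_add hT0, add_sub_cancel, Real.rpow_one]

lemma logRare_bad (W : ℕ) {p : ℚ × ℚ} (hθ : 0 ≤ (p.1 : ℝ)) (hθ1 : (p.1 : ℝ) < 1) (hc : 2 / (3 + (p.1 : ℝ)) < (p.2 : ℝ)) :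
    LogRare W (bad W p) := by
  obtain ⟨T₁, hT3, hT₁⟩ := measure_bad W hθ hθ1 hc
  have hl1 : 0 < Real.log T₁ := Real.log_pos (by linarith)
  refine ⟨1 + Real.log T₁ ^ W, fun X hX => ?_⟩
  have hlX : 0 < Real.log X := Real.log_pos (by linarith)
  have hX0 : 0 < X := by linarith
  have h0 : 0 ≤ X / Real.log X ^ W := by positivity
  rcases le_or_gt T₁ X with h1 | h1
  · refine (measure_mono ?_).trans ((hT₁ X h1).trans (ENNReal.ofReal_le_ofReal ?_))
    · rintro t ⟨h2 | h2, h3, h4⟩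
      · exact absurd h2 (by linarith)
      · exact ⟨h2, h3, h4⟩
    · have : 0 ≤ Real.log T₁ ^ W * (X / Real.log X ^ W) := by positivity
      linarith
  · refine (measure_mono Set.inter_subset_right).trans ?_
    rw [Real.volume_Icc]
    refine ENNReal.ofReal_le_ofReal ?_
    have h2 : Real.log X ^ W ≤ Real.log T₁ ^ W := pow_le_pow_left₀ hlX.le (Real.log_le_log hX0 h1.le) _
    have h3 : X ≤ Real.log T₁ ^ W * (X / Real.log X ^ W) := by
      rw [← mul_div_assoc, le_div_iff₀ (by positivity), mul_comm]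
      exact mul_le_mul_of_nonneg_right h2 hX0.le
    linarith

/-- the indices of the exceptional sets -/
abbrev Ix := {p : ℚ × ℚ // 0 ≤ (p.1 : ℝ) ∧ (p.1 : ℝ) < 1 ∧ 2 / (3 + (p.1 : ℝ)) < (p.2 : ℝ)}

lemma exists_ix {θ c : ℝ} (hθ : 0 ≤ θ) (hθ1 : θ < 1) (hc : 2 / (3 + θ) < c) :
    ∃ p : Ix, (p.1.1 : ℝ) ≤ θ ∧ (p.1.2 : ℝ) ≤ c := by
  obtain ⟨q, hq1, hq2⟩ := exists_rat_btwn hc
  -- a rational `θ' ≤ θ` with `2 / (3 + θ') < q`
  rcases eq_or_lt_of_le hθ with h0 | h0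
  · refine ⟨⟨(0, q), by simp, by simp, ?_⟩, by simpa using hθ, hq2.le⟩
    rw [← h0] at hq1
    simpa using hq1
  · have hq0 : (0 : ℝ) < q := lt_trans (by positivity) hq1
    have h1 : max (0 : ℝ) (2 / (q : ℝ) - 3) < θ := by
      refine max_lt h0 ?_
      rw [div_lt_iff₀ (by linarith)] at hq1
      have : 2 / (q : ℝ) < 3 + θ := by
        rw [div_lt_iff₀ hq0]
        linarith
      linarith
    obtain ⟨s, hs1, hs2⟩ := exists_rat_btwn h1
    have hs0 : (0 : ℝ) ≤ s := (le_max_left _ _).trans hs1.le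
    have hs3 : 2 / (q : ℝ) - 3 < s := lt_of_le_of_lt (le_max_right _ _) hs1
    refine ⟨⟨(s, q), hs0, hs2.trans hθ1, ?_⟩, hs2.le, hq2.le⟩
    simp only
    rw [div_lt_iff₀ (by linarith)]
    have : 2 / (q : ℝ) < 3 + s := by linarith
    rw [div_lt_iff₀ hq0] at this
    linarith

lemma bad_of (W : ℕ) {θ c : ℝ} {p : Ix} (h1 : (p.1.1 : ℝ) ≤ θ) (h2 : (p.1.2 : ℝ) ≤ c) {t : ℝ}
    (ht : ¬ SmallGap c t (t ^ θ * Real.log t ^ (W + 39))) : t ∈ bad W p.1 := by
  by_contra hbad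
  unfold bad at hbad
  rw [Set.mem_ofPred_eq] at hbad
  push Not at hbad
  obtain ⟨h3, h4⟩ := hbad
  apply ht
  refine SmallGap.mono (by linarith) h2 ?_ h4
  have h5 : 0 ≤ Real.log t := Real.log_nonneg (by linarith)
  exact mul_le_mul_of_nonneg_right (Real.rpow_le_rpow_of_exponent_le (by linarith) h1) (pow_nonneg h5 _)

lemma mostGaps_of {t : ℕ → ℝ} (h : ∀ (U : ℕ) (p : Ix), ∀ᶠ N : ℕ in atTop,
    ({n : ℕ | n < N ∧ t n ∈ bad (U + 2 + 2) p.1}.ncard : ℝ) ≤ N / Real.log N ^ U) : MostGaps t := by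
  intro U θ c hθ hθ1 hc
  obtain ⟨p, hp1, hp2⟩ := exists_ix hθ hθ1 hc
  filter_upwards [h U p] with N hN
  refine le_trans (Nat.cast_le.2 (Set.ncard_le_ncard ?_ ?_)) hN
  · rintro n ⟨hn1, hn2⟩
    exact ⟨hn1, bad_of (U + 2 + 2) hp1 hp2 hn2⟩
  · exact (Set.finite_lt_nat N).subset fun n hn => hn.1

/-- **Small gaps at random heights and along separated sequences.** -/
theorem result :
    -- random heights of polynomial growth
    (∀ (Ω : Type) [MeasurableSpace Ω] (μ : Measure Ω) [IsProbabilityMeasure μ] (T : ℕ → Ω → ℝ) (C κ : ℝ), 0 ≤ C → 0 < κ →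
      Spread μ T C →
      (∀ N : ℕ, (({n : ℕ | n < N ∧ ¬ ∀ᵐ ω ∂μ, (N : ℝ) ^ κ ≤ T n ω}.ncard : ℝ) ≤ C * (N : ℝ) ^ (1 - κ))) →
      ∀ᵐ ω ∂μ, MostGaps (fun n => T n ω)) ∧
    -- fast random heights
    (∀ (Ω : Type) [MeasurableSpace Ω] (μ : Measure Ω) [IsProbabilityMeasure μ] (T : ℕ → Ω → ℝ) (C δ : ℝ) (V : ℕ), 0 ≤ C →
      Spread μ T C → 1 < δ * V → (∀ n : ℕ, ∀ᵐ ω ∂μ, Real.exp ((n : ℝ) ^ δ) ≤ T n ω) →
      ∀ᵐ ω ∂μ, AllGaps V (fun n => T n ω)) ∧
    -- separated sequences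
    (∀ (a : ℕ → ℝ) (δ : ℝ), (∀ n, 0 < a n) → 0 < δ → (∀ m n, m ≠ n → δ ≤ |a m - a n|) →
      ∀ᵐ x : ℝ, 0 < x → MostGaps (fun n => a n * x)) := by
  refine ⟨fun Ω _ μ _ T C κ hC hκ hT hg => ?_, fun Ω _ μ _ T C δ V hC hT hV hg => ?_, fun a δ ha0 hδ ha => ?_⟩
  · have h1 : ∀ᵐ ω ∂μ, ∀ (U : ℕ) (p : Ix), ∀ᶠ N : ℕ in atTop,
        ({n : ℕ | n < N ∧ T n ω ∈ bad (U + 2 + 2) p.1}.ncard : ℝ) ≤ N / Real.log N ^ U :=
      ae_all_iff.2 fun U => ae_all_iff.2 fun p =>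
        (logRare_bad (U + 2 + 2) p.2.1 p.2.2.1 p.2.2.2).count μ T hC hT hκ hg
    filter_upwards [h1] with ω hω
    exact mostGaps_of hω
  · have h1 : ∀ᵐ ω ∂μ, ∀ p : Ix, ∀ᶠ n : ℕ in atTop, T n ω ∉ bad (V + 2) p.1 :=
      ae_all_iff.2 fun p => (logRare_bad (V + 2) p.2.1 p.2.2.1 p.2.2.2).eventually μ T hC hT hV hg
    filter_upwards [h1] with ω hω θ c hθ hθ1 hc
    obtain ⟨p, hp1, hp2⟩ := exists_ix hθ hθ1 hc
    filter_upwards [hω p] with n hn
    by_contra h2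
    exact hn (bad_of (V + 2) hp1 hp2 h2)
  · have h1 : ∀ᵐ x : ℝ, ∀ (U : ℕ) (p : Ix), 0 < x → ∀ᶠ N : ℕ in atTop,
        ({n : ℕ | n < N ∧ a n * x ∈ bad (U + 2 + 2) p.1}.ncard : ℝ) ≤ N / Real.log N ^ U :=
      ae_all_iff.2 fun U => ae_all_iff.2 fun p =>
        (logRare_bad (U + 2 + 2) p.2.1 p.2.2.1 p.2.2.2).separated ha0 hδ ha
    filter_upwards [h1] with x hx hx0
    exact mostGaps_of fun U p => hx U p hx0

end Pool.Agent.Results.MP_ca0a54_nt.RandomHeights
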