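import Pool.Agent.N593.DZ.Real
import Pool.Agent.Results.MP_ca0a54_nt.AlmostAllIntervals

/-!
# Small gaps between zeta zeros at the denominators of the convergents of almost every number

Let `G` be a sequence of heights with `G (v + 1) - G v ≥ a > 0` and `G v ≤ C v`, for example `G v = a v + b`. For almost every
real number `ξ` and all `0 ≤ θ < 1`, `c > 2 / (3 + θ)`, for all but finitely many of the convergents `p / q` of the continued
fraction of `ξ` the interval `[t, t + t ^ θ (log t) ^ 43]`, `t = G q`, contains two consecutive ordinates of zeros of `ζ` at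
distance less than `c` times the mean spacing `2π / log t`. The same holds for all simultaneous approximations: for almost all
`α` in `ℝ^k` and all `b`, for all but finitely many `q` with `|q α_j - p_j| ≤ b q^(-1/k)` for some integers `p_j`. The
denominators grow exponentially, and so this does not follow from the measure of the set of the exceptional `t`.

Proof. The starting theorem `AlmostAllIntervals` of this problem bounds the measure of the set of the `t ∈ [T, 2 T]` for which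
a slightly shorter interval contains no small gap by `T / (log T) ^ 3`. If it holds for no `t` in `[G q, G q + a)` then `q`
is in a set with at most `X / (log X) ^ 2` elements up to `X` (`Pool.Agent.N593.DZ`), and almost all `ξ` have only finitely
many such `q` (`Pool.Agent.N220.CF`, helper220).
-/

set_option autoImplicit false

open Filter Topology MeasureTheory Finset

namespace Pool.Agent.Results.MP_ca0a54_nt.ZerosAtGoodApproximations

open Pool.Agent.N220.CF (FinitelyMet Approx finitely_usual finitely_iff_all)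
open Pool.Agent.N593.DZ (finitely_real gap_lin)
open Pool.Agent.Results.MP_ca0a54_nt.AlmostAllIntervals (ord gb)

/-- `[t, t + H]` contains two consecutive ordinates of zeros (listed with multiplicity) at distance less than `c` times the
mean spacing `2π / log t` -/
def SmallGap (c t H : ℝ) : Prop :=
  ∃ m : ℕ, 1 ≤ m ∧ t ≤ ord m ∧ ord m ≤ ord (m + 1) ∧ ord (m + 1) ≤ t + H ∧
    ord (m + 1) - ord m < c * (2 * Real.pi / Real.log t)

/-- (as in `StarshapedIntervals`) -/
lemma tendsto_phi (C : ℝ) :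
    Tendsto (fun T : ℝ => (1 + C * (Real.log (Real.log T) / Real.log T)) * (1 + Real.log 2 / Real.log T)) atTop
      (𝓝 1) := by
  have h1 : Tendsto (fun T : ℝ => Real.log (Real.log T) / Real.log T) atTop (𝓝 0) :=
    (Real.isLittleO_log_id_atTop.tendsto_div_nhds_zero).comp Real.tendsto_log_atTop
  have h2 : Tendsto (fun T : ℝ => Real.log 2 / Real.log T) atTop (𝓝 0) :=
    tendsto_const_nhds.div_atTop Real.tendsto_log_atTop
  have h3 := ((h1.const_mul C).const_add 1).mul (h2.const_add 1)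
  simpa using h3

/-- (as in `StarshapedIntervals`) -/
lemma gap_lt {C c θ T H t : ℝ} (hC : 0 < C) (hθ : 0 ≤ θ) (hc : 0 < c) (hT : 3 ≤ T) (hH : T ^ θ ≤ H) (ht1 : T ≤ t)
    (ht2 : t ≤ 2 * T)
    (hφ : 2 / (3 + θ) * ((1 + C * (Real.log (Real.log T) / Real.log T)) * (1 + Real.log 2 / Real.log T)) < c) :
    gb C H T < c * (2 * Real.pi / Real.log t) := by
  have hT0 : 0 < T := by linarith
  have hl1 : 1 < Real.log T := by
    rw [Real.lt_log_iff_exp_lt hT0]
    have := Real.exp_one_lt_d9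
    linarith
  set l : ℝ := Real.log T with hl
  have hl0 : 0 < l := by linarith
  set A : ℝ := 1 + C * (Real.log l / l) with hA
  have hA0 : 0 < A := by
    have : 0 ≤ Real.log l := Real.log_nonneg hl1.le
    positivity
  have hTθ : 0 < T ^ θ := by positivity
  have hH0 : 0 < H := lt_of_lt_of_le hTθ hH
  have h1 : (3 + θ) * l ≤ Real.log (T ^ 3 * H) := by
    rw [Real.log_mul (by positivity) hH0.ne', Real.log_pow]
    have := Real.log_le_log hTθ hH
    rw [Real.log_rpow hT0] at this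
    push_cast
    linarith
  have h2 : gb C H T ≤ 4 * Real.pi / ((3 + θ) * l) * A := by
    unfold gb
    apply mul_le_mul_of_nonneg_right _ hA0.le
    exact div_le_div_of_nonneg_left (by positivity) (by positivity) h1
  have h2l : 0 < Real.log 2 := Real.log_pos (by norm_num)
  have h3 : Real.log t ≤ l + Real.log 2 := by
    have := Real.log_le_log (by linarith) ht2
    rw [Real.log_mul (by norm_num) hT0.ne'] at this
    linarith
  have h4 : 0 < Real.log t := Real.log_pos (by linarith)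
  have h5 : c * (2 * Real.pi / (l + Real.log 2)) ≤ c * (2 * Real.pi / Real.log t) := by
    apply mul_le_mul_of_nonneg_left _ hc.le
    exact div_le_div_of_nonneg_left (by positivity) h4 h3
  refine h2.trans_lt (lt_of_lt_of_le ?_ h5)
  have h6 : 4 * Real.pi / ((3 + θ) * l) * A =
      (2 / (3 + θ) * (A * (1 + Real.log 2 / l))) * (2 * Real.pi / (l + Real.log 2)) := by
    have h7 : l + Real.log 2 ≠ 0 := by positivity
    field_simp
    ring
  rw [h6]
  exact mul_lt_mul_of_pos_right hφ (by positivity)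

/-- the measure of the set of the exceptional `t` -/
lemma meas {θ c : ℝ} (hθ : 0 ≤ θ) (hθ1 : θ < 1) (hc : 2 / (3 + θ) < c) :
    ∃ T₀ : ℝ, ∀ T : ℝ, T₀ ≤ T → volume ({t : ℝ | ¬ SmallGap c t (t ^ θ * Real.log t ^ 42)} ∩ Set.Icc T (2 * T)) ≤
      ENNReal.ofReal (T / Real.log T ^ (2 + 1)) := by
  have hc0 : 0 < c := lt_trans (by positivity) hc
  obtain ⟨C, T0, hC, hmain⟩ := AlmostAllIntervals.result.1 3
  have e1 : ∀ᶠ T : ℝ in atTop,
      2 / (3 + θ) * ((1 + C * (Real.log (Real.log T) / Real.log T)) * (1 + Real.log 2 / Real.log T)) < c := by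
    have h1 := (tendsto_phi C).const_mul (2 / (3 + θ))
    rw [mul_one] at h1
    exact h1.eventually_lt_const hc
  have e2 : ∀ᶠ T : ℝ in atTop, Real.log T ^ 42 ≤ T ^ (1 - θ) := by
    have h1 := isLittleO_log_rpow_rpow_atTop ((42 : ℕ) : ℝ) (show 0 < 1 - θ by linarith)
    filter_upwards [h1.bound one_pos, eventually_ge_atTop (1 : ℝ)] with T h2 h3
    rw [one_mul, Real.rpow_natCast, Real.norm_of_nonneg (pow_nonneg (Real.log_nonneg h3) _),
      Real.norm_of_nonneg (by positivity)] at h2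
    exact h2
  obtain ⟨T₁, hT₁⟩ := eventually_atTop.1 ((e1.and e2).and ((eventually_ge_atTop T0).and (eventually_ge_atTop (3 : ℝ))))
  refine ⟨T₁, fun T hT => ?_⟩
  obtain ⟨⟨g1, g2⟩, g3, g4⟩ := hT₁ T hT
  have hT0 : 0 < T := by linarith
  have hlog1 : 1 ≤ Real.log T := by
    rw [Real.le_log_iff_exp_le hT0]
    have := Real.exp_one_lt_d9
    linarith
  have hTθ : 1 ≤ T ^ θ := Real.one_le_rpow (by linarith) hθ
  have h42 : (1 : ℝ) ≤ Real.log T ^ 42 := one_le_pow₀ hlog1
  refine (measure_mono ?_).trans (hmain T (T ^ θ * Real.log T ^ 42) g3 ?_ ?_)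
  · rintro t ⟨ht, ht1, ht2⟩
    refine ⟨ht1, ht2, ?_⟩
    rintro ⟨m, h1, h2, h3, h4, h5⟩
    apply ht
    have h6 : T ^ θ * Real.log T ^ 42 ≤ t ^ θ * Real.log t ^ 42 := by
      apply mul_le_mul (Real.rpow_le_rpow hT0.le ht1 hθ) _ (by positivity) (by
        have : 0 < t := by linarith
        positivity)
      exact pow_le_pow_left₀ (by linarith) (Real.log_le_log hT0 ht1) _
    refine ⟨m, h1, h2, h3, h4.trans (by linarith), lt_of_le_of_lt h5 ?_⟩
    apply gap_lt hC hθ hc0 g4 _ ht1 ht2 g1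
    calc T ^ θ = T ^ θ * 1 := (mul_one _).symm
      _ ≤ T ^ θ * Real.log T ^ 42 := mul_le_mul_of_nonneg_left h42 (by linarith)
  · calc Real.log T ^ (3 + 39) = 1 * Real.log T ^ 42 := by rw [one_mul]
      _ ≤ T ^ θ * Real.log T ^ 42 := mul_le_mul_of_nonneg_right hTθ (by linarith)
  · calc T ^ θ * Real.log T ^ 42 ≤ T ^ θ * T ^ (1 - θ) := mul_le_mul_of_nonneg_left g2 (by linarith)
      _ = T := by
          rw [← Real.rpow_add hT0, add_sub_cancel, Real.rpow_one]

/-- the interval at `x` contains the shorter intervals at the points of `[x, x + a)` -/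
lemma window {a θ x t : ℝ} (ha : 0 < a) (hθ : 0 ≤ θ) (hθ1 : θ < 1) (hx1 : a ≤ x) (hx2 : 2 ≤ x)
    (hx3 : 2 ^ 43 + a ≤ Real.log x) (ht1 : x ≤ t) (ht2 : t < x + a) :
    t + t ^ θ * Real.log t ^ 42 ≤ x + x ^ θ * Real.log x ^ 43 := by
  have hx0 : 0 < x := by linarith
  have ht0 : 0 < t := by linarith
  have hl1 : 1 ≤ Real.log x := by
    have : (1 : ℝ) ≤ 2 ^ 43 := by norm_num
    linarith
  have h1 : t ^ θ ≤ 2 * x ^ θ := by
    calc t ^ θ ≤ (2 * x) ^ θ := Real.rpow_le_rpow ht0.le (by linarith) hθ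
      _ = 2 ^ θ * x ^ θ := Real.mul_rpow (by norm_num) hx0.le
      _ ≤ 2 * x ^ θ := by
          apply mul_le_mul_of_nonneg_right _ (by positivity)
          calc (2 : ℝ) ^ θ ≤ 2 ^ (1 : ℝ) := Real.rpow_le_rpow_of_exponent_le (by norm_num) hθ1.le
            _ = 2 := Real.rpow_one 2
  have h2 : Real.log t ≤ 2 * Real.log x := by
    have h3 : Real.log t ≤ Real.log (x * x) := Real.log_le_log ht0 (by nlinarith)
    rw [Real.log_mul hx0.ne' hx0.ne'] at h3
    linarith
  have hlt : 0 ≤ Real.log t := Real.log_nonneg (by linarith)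
  have h4 : Real.log t ^ 42 ≤ 2 ^ 42 * Real.log x ^ 42 := by
    calc Real.log t ^ 42 ≤ (2 * Real.log x) ^ 42 := pow_le_pow_left₀ hlt h2 _
      _ = _ := by rw [mul_pow]
  have hxθ : 1 ≤ x ^ θ := Real.one_le_rpow (by linarith) hθ
  have hl42 : 1 ≤ Real.log x ^ 42 := one_le_pow₀ hl1
  have h5 : t ^ θ * Real.log t ^ 42 ≤ 2 ^ 43 * (x ^ θ * Real.log x ^ 42) := by
    calc t ^ θ * Real.log t ^ 42 ≤ (2 * x ^ θ) * (2 ^ 42 * Real.log x ^ 42) :=
          mul_le_mul h1 h4 (by positivity) (by positivity)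
      _ = _ := by ring
  have h6 : 1 ≤ x ^ θ * Real.log x ^ 42 := one_le_mul_of_one_le_of_one_le hxθ hl42
  have h7 : x ^ θ * Real.log x ^ 43 = Real.log x * (x ^ θ * Real.log x ^ 42) := by ring
  rw [h7]
  have h8 : (2 ^ 43 + a) * (x ^ θ * Real.log x ^ 42) ≤ Real.log x * (x ^ θ * Real.log x ^ 42) :=
    mul_le_mul_of_nonneg_right hx3 (by linarith)
  nlinarith

lemma finitely_lt (q₀ : ℕ) : FinitelyMet {q : ℕ | q < q₀} := by
  classical
  have h : ∀ᶠ X : ℝ in atTop, (q₀ : ℝ) * Real.log X ^ 2 ≤ X := by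
    have h1 := (Real.isLittleO_pow_log_id_atTop (n := 2)).bound (show (0 : ℝ) < 1 / (q₀ + 1) by positivity)
    filter_upwards [h1, eventually_ge_atTop (1 : ℝ)] with X h2 h3
    rw [id, Real.norm_of_nonneg (by positivity), Real.norm_of_nonneg (by linarith), one_div, inv_mul_eq_div,
      le_div_iff₀ (by positivity)] at h2
    nlinarith [sq_nonneg (Real.log X)]
  obtain ⟨X₀, hX₀⟩ := eventually_atTop.1 h
  refine finitely_usual _ le_rfl ⟨max 3 ⌈X₀⌉₊, fun X hX => ?_⟩
  have hX1 : X₀ ≤ X := (Nat.le_ceil X₀).trans (by exact_mod_cast (le_max_right _ _).trans hX)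
  have hX3 : 3 ≤ X := (le_max_left _ _).trans hX
  have hX3' : (3 : ℝ) ≤ X := by exact_mod_cast hX3
  have hl : 0 < Real.log X := Real.log_pos (by linarith)
  have h1 : ((Icc 1 X).filter (fun v => v ∈ {q : ℕ | q < q₀})).card ≤ q₀ := by
    calc _ ≤ (range q₀).card := card_le_card fun v hv => mem_range.2 (mem_filter.1 hv).2
      _ = q₀ := card_range _
  have h1' : (((Icc 1 X).filter (fun v => v ∈ {q : ℕ | q < q₀})).card : ℝ) ≤ q₀ := by exact_mod_cast h1
  rw [le_div_iff₀ (by positivity)]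
  refine le_trans (mul_le_mul_of_nonneg_right (le_trans (le_of_eq ?_) h1') (by positivity)) (hX₀ _ hX1)
  congr!

/-- large heights -/
lemma large {G : ℕ → ℝ} {a : ℝ} (ha : 0 < a) (h : ∀ v : ℕ, 1 ≤ v → a ≤ G (v + 1) - G v) (M : ℝ) :
    ∃ q₀ : ℕ, ∀ q : ℕ, q₀ ≤ q → M ≤ G q := by
  obtain ⟨n, hn⟩ := exists_nat_ge ((M - G 1) / a + 1)
  refine ⟨n + 1, fun q hq => ?_⟩
  have h1 := gap_lin h (show 1 ≤ q by omega)
  have h2 : (n : ℝ) ≤ q := by exact_mod_cast (by omega : n ≤ q)
  have h3 : (M - G 1) / a ≤ q - 1 := by linarith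
  rw [div_le_iff₀ ha] at h3
  linarith

lemma main {θ c : ℝ} (hθ : 0 ≤ θ) (hθ1 : θ < 1) (hc : 2 / (3 + θ) < c) {G : ℕ → ℝ} {a C : ℝ} (ha : 0 < a)
    (h : ∀ v : ℕ, 1 ≤ v → a ≤ G (v + 1) - G v) (hG : ∀ v : ℕ, 1 ≤ v → G v ≤ C * v) :
    FinitelyMet {q : ℕ | ¬ SmallGap c (G q) (G q ^ θ * Real.log (G q) ^ 43)} := by
  have hc0 : 0 < c := lt_trans (by positivity) hc
  obtain ⟨q₀, hq₀⟩ := large ha h (max (max a 2) (Real.exp (2 ^ 43 + a)))
  refine ((finitely_real {t : ℝ | ¬ SmallGap c t (t ^ θ * Real.log t ^ 42)} le_rfl (meas hθ hθ1 hc) ha h hG).union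
    (finitely_lt q₀)).subset fun q _ hq => ?_
  rcases lt_or_ge q q₀ with h2 | h2
  · exact Or.inr h2
  · left
    have h3 := hq₀ q h2
    have h4 : a ≤ G q := (le_max_left _ _).trans ((le_max_left _ _).trans h3)
    have h5 : 2 ≤ G q := (le_max_right _ _).trans ((le_max_left _ _).trans h3)
    have h6 : 2 ^ 43 + a ≤ Real.log (G q) := by
      rw [Real.le_log_iff_exp_le (by linarith)]
      exact (le_max_right _ _).trans h3
    rintro t ⟨ht1, ht2⟩ ⟨m, k1, k2, k3, k4, k5⟩
    apply hq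
    refine ⟨m, k1, ht1.trans k2, k3, k4.trans (window ha hθ hθ1 h4 h5 h6 ht1 ht2), lt_of_lt_of_le k5 ?_⟩
    have hl : 0 < Real.log (G q) := Real.log_pos (by linarith)
    apply mul_le_mul_of_nonneg_left _ hc0.le
    exact div_le_div_of_nonneg_left (by positivity) hl (Real.log_le_log (by linarith) ht1)

/-- the pairs `(θ, c)` of rational numbers with `0 ≤ θ < 1`, `c > 2 / (3 + θ)` -/
def Pairs : Type := {x : ℚ × ℚ // 0 ≤ (x.1 : ℝ) ∧ (x.1 : ℝ) < 1 ∧ 2 / (3 + (x.1 : ℝ)) < x.2}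

instance : Countable Pairs := by
  unfold Pairs
  infer_instance

lemma exists_pair {θ c : ℝ} (hθ : 0 ≤ θ) (hθ1 : θ < 1) (hc : 2 / (3 + θ) < c) :
    ∃ x : Pairs, (x.1.1 : ℝ) ≤ θ ∧ (x.1.2 : ℝ) ≤ c := by
  have hc0 : 0 < c := lt_trans (by positivity) hc
  obtain ⟨s, h1, h2, h3⟩ : ∃ s : ℚ, 0 ≤ (s : ℝ) ∧ (s : ℝ) ≤ θ ∧ 2 / (3 + (s : ℝ)) < c := by
    rcases lt_or_ge (2 / (3 + 0)) c with h | h
    · exact ⟨0, by norm_num, by simpa using hθ, by simpa using h⟩
    · have h4 : 2 / c - 3 < θ := by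
        rw [div_lt_iff₀ (by positivity)] at hc
        rw [sub_lt_iff_lt_add, div_lt_iff₀ hc0]
        linarith
      have h5 : 0 ≤ 2 / c - 3 := by
        rw [add_zero, le_div_iff₀ (by norm_num)] at h
        rw [sub_nonneg, le_div_iff₀ hc0]
        linarith
      obtain ⟨s, hs1, hs2⟩ := exists_rat_btwn h4
      refine ⟨s, by linarith, hs2.le, ?_⟩
      rw [div_lt_iff₀ (by linarith)]
      rw [sub_lt_iff_lt_add, div_lt_iff₀ hc0] at hs1
      linarith
  obtain ⟨d, hd1, hd2⟩ := exists_rat_btwn h3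
  exact ⟨⟨(s, d), h1, by linarith, hd1⟩, h2, hd2.le⟩

lemma mono {θ θ' c c' t : ℝ} (hθ : θ' ≤ θ) (hc : c' ≤ c) (ht : 2 ≤ t) (h : SmallGap c' t (t ^ θ' * Real.log t ^ 43)) :
    SmallGap c t (t ^ θ * Real.log t ^ 43) := by
  obtain ⟨m, k1, k2, k3, k4, k5⟩ := h
  have hl : 0 < Real.log t := Real.log_pos (by linarith)
  refine ⟨m, k1, k2, k3, k4.trans ?_, lt_of_lt_of_le k5 ?_⟩
  · have : t ^ θ' * Real.log t ^ 43 ≤ t ^ θ * Real.log t ^ 43 :=
      mul_le_mul_of_nonneg_right (Real.rpow_le_rpow_of_exponent_le (by linarith) hθ) (by positivity)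
    linarith
  · exact mul_le_mul_of_nonneg_right hc (by positivity)

/-- **Small gaps between zeta zeros at the denominators of good approximations.** Let `G (v + 1) - G v ≥ a > 0` and
`G v ≤ C v` for all `v ≥ 1`. (1) For all `k ≥ 1` and almost all `α` in `ℝ^k`, for all `0 ≤ θ < 1`, `c > 2 / (3 + θ)` and `b`,
for all but finitely many `q ≥ 1` with `|q α_j - p_j| ≤ b q^(-1/k)` for all `j` and some integers `p_j` the interval
`[t, t + t^θ (log t)^43]`, `t = G q`, contains two consecutive ordinates at distance less than `c` times the mean spacing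
`2π / log t`. (2) For almost all real `ξ` and all such `θ`, `c` the same holds for all but finitely many denominators `q` of
the convergents of `ξ`. -/
theorem result (G : ℕ → ℝ) (a C : ℝ) (ha : 0 < a) (hgap : ∀ v : ℕ, 1 ≤ v → a ≤ G (v + 1) - G v)
    (hG : ∀ v : ℕ, 1 ≤ v → G v ≤ C * v) :
    (∀ k : ℕ, 1 ≤ k → ∀ᵐ α : Fin k → ℝ, ∀ θ c b : ℝ, 0 ≤ θ → θ < 1 → 2 / (3 + θ) < c →
      {q : ℕ | Approx b (1 / k) α q ∧ ¬ SmallGap c (G q) (G q ^ θ * Real.log (G q) ^ 43)}.Finite) ∧
    ∀ᵐ ξ : ℝ, ∀ θ c : ℝ, 0 ≤ θ → θ < 1 → 2 / (3 + θ) < c → ∀ᶠ n : ℕ in atTop,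
      SmallGap c (G (ξ.convergent n).den) (G (ξ.convergent n).den ^ θ * Real.log (G (ξ.convergent n).den) ^ 43) := by
  obtain ⟨q₀, hq₀⟩ := large ha hgap 2
  obtain ⟨h1, h2⟩ := finitely_iff_all (ι := Option Pairs) (W := fun i => match i with
    | none => {q : ℕ | q < q₀}
    | some x => {q : ℕ | ¬ SmallGap x.1.2 (G q) (G q ^ (x.1.1 : ℝ) * Real.log (G q) ^ 43)}) (by
      rintro (_ | x)
      · exact finitely_lt q₀
      · exact main x.2.1 x.2.2.1 x.2.2.2 ha hgap hG)
  refine ⟨fun k hk => ?_, ?_⟩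
  · filter_upwards [h1 k hk] with α hα θ c b hθ hθ1 hc
    obtain ⟨x, hx1, hx2⟩ := exists_pair hθ hθ1 hc
    refine ((hα none b).union (hα (some x) b)).subset ?_
    rintro q ⟨hq1, hq2⟩
    rcases lt_or_ge q q₀ with h | h
    · exact Or.inl ⟨hq1, h⟩
    · exact Or.inr ⟨hq1, fun hcon => hq2 (mono hx1 hx2 (hq₀ q h) hcon)⟩
  · filter_upwards [h2] with ξ hξ θ c hθ hθ1 hc
    obtain ⟨x, hx1, hx2⟩ := exists_pair hθ hθ1 hc
    filter_upwards [hξ none, hξ (some x)] with n hn1 hn2
    have h3 : q₀ ≤ (ξ.convergent n).den := not_lt.1 hn1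
    exact mono hx1 hx2 (hq₀ _ h3) (not_not.1 hn2)

end Pool.Agent.Results.MP_ca0a54_nt.ZerosAtGoodApproximations
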